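import Pool.Agent.Lib.MP_49fa77_co.H30.Iface3
import Pool.Agent.Lib.MP_49fa77_co.H06.Rg

/-!
# RA: the value of a region and its area (helper18)
-/

set_option autoImplicit false

namespace FT58.AS.H18

open Real MeasureTheory Set Metric Filter Relation FT58 FT58.AS FT58.AS.H06

section
open Classical

/-- the function `w ↦ Hh D a w + (1-D) A² tan w` is nondecreasing on `[0, π/2)` -/
lemma hh_mono {D a A β ω : ℝ} (hD0 : 0 ≤ D) (hD1 : D ≤ 1) (ha : 0 < a) (haA : a ≤ A)
    (h0 : 0 ≤ β) (hβω : β ≤ ω) (hω : ω < π / 2) :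
    Hh D a β + (1 - D) * (A ^ 2 * tan β) ≤ Hh D a ω + (1 - D) * (A ^ 2 * tan ω) := by
  have hpi := pi_pos
  have aβ : |β| < π / 2 := by rw [abs_of_nonneg h0]; linarith
  have aω : |ω| < π / 2 := by rw [abs_of_nonneg (h0.trans hβω)]; exact hω
  have i1 := mi_intInt (a := a) (B := 4 / 3) ha (by norm_num) β ω
  have i2 := mi_intInt (a := a) (B := 1) ha (by norm_num) β ω
  have i3 := sec_intInt (a := a) aβ aω
  have e1 := Mi_sub (a := a) (B := 4 / 3) ha (by norm_num) β ω
  have e2 := Mi_sub (a := a) (B := 1) ha (by norm_num) β ω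
  have e3 := integral_sec (a := a) aβ aω
  have k1 : (∫ θ in β..ω, -(1 - D) * (a ^ 2 / cos θ ^ 2)) ≤
      ∫ θ in β..ω, (D * mi a (4 / 3) θ - mi a 1 θ) := by
    apply intervalIntegral.integral_mono_on hβω (i3.const_mul _) ((i1.const_mul _).sub i2)
    intro x hx
    have hc : 0 < cos x := cos_pos_of_mem_Ioo ⟨by linarith [hx.1], by linarith [hx.2]⟩
    exact mi_key ha hD0 hD1 hc.ne'
  rw [intervalIntegral.integral_sub (i1.const_mul _) i2, intervalIntegral.integral_const_mul,
    intervalIntegral.integral_const_mul, e3, ← e1, ← e2] at k1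
  have ht : tan β ≤ tan ω := by
    rcases hβω.eq_or_lt with h | h
    · rw [h]
    · exact (tan_lt_tan_of_lt_of_lt_pi_div_two (by linarith) hω h).le
  have hA : a ^ 2 ≤ A ^ 2 := pow_le_pow_left₀ ha.le haA 2
  have k2 : (1 - D) * (a ^ 2 * (tan ω - tan β)) ≤ (1 - D) * (A ^ 2 * (tan ω - tan β)) :=
    mul_le_mul_of_nonneg_left (mul_le_mul_of_nonneg_right hA (by linarith)) (by linarith)
  unfold Hh
  nlinarith

lemma Hh_zero (D a : ℝ) : Hh D a 0 = 0 := by
  unfold Hh
  rw [Mi_zero, Mi_zero]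
  ring

lemma aa_le_half (c q : ℂ) : aa c q ≤ ‖q - c‖ / 2 := by
  unfold aa
  split_ifs with h
  · exact le_rfl
  · unfold Sh at h
    linarith [not_lt.mp h]

theorem ra_st : RaS := by
  intro D S T hD0 hD1 hF _ hgood
  set k : ℂ → ℂ → ℝ := fun c q => (1 - D) * ((‖q - c‖ / 2) ^ 2 * tan (al S c q)) with hk
  set g : ℂ → ℂ → ℝ := fun c q => Hh D (aa c q) (al S c q) + k c q with hg
  have s1 : 3 * sE S (Lf T) (al S) = π / 2 * nE S (Lf T) := by
    rw [← sT_edge hF, ← sT_avg hF.cyc, ← sE_const, ← sT_edge hF (fun _ _ => π / 2)]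
    apply sT_congr
    intro c q r ht
    exact al_sum (hF.tr _ _ _ ht)
  have s2 : 3 * sE S (Lf T) k = (1 - D) * (sT S T XX / 2) := by
    rw [← sT_edge hF, ← sT_avg hF.cyc]
    have h1 : sT S T (fun c q r => (1 - D) / 2 * XX c q r) = (1 - D) * (sT S T XX / 2) := by
      unfold sT
      rw [mul_div_assoc', mul_comm (1 - D), mul_div_assoc, mul_comm]
      simp only [Finset.mul_sum]
      refine Finset.sum_congr rfl fun c _ => Finset.sum_congr rfl fun q _ =>
        Finset.sum_congr rfl fun r _ => ?_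
      split_ifs <;> ring
    rw [← h1]
    apply sT_congr
    intro c q r ht
    have hTr := hF.tr _ _ _ ht
    have a1 := area_id (Tr_XX hTr)
    simp only [hk]
    rw [Tr_al hTr, Tr_al (Tr_cyc hTr), Tr_al (Tr_cyc (Tr_cyc hTr))]
    linear_combination (1 - D) * a1
  suffices key : 0 ≤ sE S (Lf T) g by
    have e1 : sE S (Lf T) (val2 D S)
        = sE S (Lf T) g - sE S (Lf T) k - (cc * D - 1) * sE S (Lf T) (al S) := by
      rw [← sE_smul, ← sE_sub, ← sE_sub]
      apply sE_congr
      · intro c _ q _; exact Iff.rfl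
      · intro c _ q _ _
        rw [val2_eq]
        simp only [hg]; ring
    have e2 := kap_eq D
    have e3 : (cc * D - 1) * sE S (Lf T) (al S) = kap D * (nE S (Lf T) / 3) := by
      rw [← e2]; linear_combination ((cc * D - 1) / 3) * s1
    have e4 : sE S (Lf T) k = (1 - D) * (sT S T XX / 6) := by linarith
    rw [e1, e3, e4]
    linarith
  have hnn : ∀ c q r, T c q r → 0 ≤ al S c q → 0 ≤ g c q := by
    intro c q r ht h0
    have hTr := hF.tr _ _ _ ht
    have hX := Tr_XX hTr
    have hlt : al S c q < π / 2 := by rw [Tr_al hTr]; exact att_lt _ _ _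
    have h1 := hh_mono (β := 0) (ω := al S c q) (a := aa c q) (A := ‖q - c‖ / 2) hD0 hD1
      (aa_pos hX) (aa_le_half c q) le_rfl h0 hlt
    rw [Hh_zero, tan_zero] at h1
    simp only [hg, hk]
    linarith
  have hmix : ∀ c q r r', T c q r → T q c r' → al S c q < 0 → 0 ≤ g c q + g q c := by
    intro c q r r' ht ht' h0
    have hTr := hF.tr _ _ _ ht
    have hTr' := hF.tr _ _ _ ht'
    have hX := Tr_XX hTr
    have hE := Tr_Ed hTr
    unfold Ed at hE
    have hlt : al S q c < π / 2 := by rw [Tr_al hTr']; exact att_lt _ _ _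
    have h1 := hh_mono (β := -al S c q) (ω := al S q c) (a := aa c q) (A := ‖q - c‖ / 2) hD0 hD1
      (aa_pos hX) (aa_le_half c q) (by linarith) (by linarith) hlt
    have h4 : Hh D (aa c q) (-al S c q) = -Hh D (aa c q) (al S c q) := by
      unfold Hh; rw [Mi_neg, Mi_neg]; ring
    rw [h4, tan_neg] at h1
    simp only [hg, hk]
    rw [aa_symm c q, norm_sub_rev c q]
    linarith
  apply sE_pair
  · rintro c _ q _ ⟨r, hr⟩ ⟨r', hr'⟩
    by_cases n1 : 0 ≤ al S c q
    · by_cases n2 : 0 ≤ al S q c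
      · exact add_nonneg (hnn _ _ _ hr n1) (hnn _ _ _ hr' n2)
      · have := hmix _ _ _ _ hr' hr (not_le.mp n2)
        linarith
    · exact hmix _ _ _ _ hr hr' (not_le.mp n1)
  · rintro c _ q _ ⟨r, hr⟩ hn
    by_cases n1 : 0 ≤ al S c q
    · exact hnn _ _ _ hr n1
    · have hTr := hF.tr _ _ _ hr
      have hX := Tr_XX hTr
      have hal := Tr_al hTr
      have hneg := not_le.mp n1
      have hR : RR c q r ≤ 1 := by
        by_contra hcon
        apply hgood _ _ _ hr hn
        refine ⟨?_, not_le.mp hcon⟩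
        unfold an
        linarith
      have h1 := small_Hh (D := D) hX hR
      simp only [hg, hk]
      rw [hal, h1]
      apply le_of_eq
      ring

end

end FT58.AS.H18
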